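import Pool.Agent.H746R2.AA.Hyper

/-!
# Random perturbations of the Fourier coefficients: a lower bound for the sup norm
-/

set_option autoImplicit false
set_option linter.unusedSectionVars false

namespace Pool.Agent.W769.SM

open Finset Pool.Agent.H722R2.AA Pool.Agent.H746R2.AA

variable {κ : Type*} [Fintype κ] [DecidableEq κ]

/-- A Rademacher sum. -/
noncomputable def rad (b : κ → ℝ) (e : κ → ℤˣ) : ℝ := ∑ S, sg e S * b S

lemma rad_chi (b : κ → ℝ) (U : Finset κ) :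
    Ex (fun e : κ → ℤˣ => rad b e * ∏ i ∈ U, sg e i) = ∑ S, if ({S} : Finset κ) = U then b S else 0 := by
  have h1 : ∀ e : κ → ℤˣ, rad b e * ∏ i ∈ U, sg e i
      = ∑ S, b S * ((∏ i ∈ ({S} : Finset κ), sg e i) * ∏ i ∈ U, sg e i) := by
    intro e
    unfold rad
    rw [Finset.sum_mul]
    refine Finset.sum_congr rfl fun S _ => ?_
    rw [Finset.prod_singleton]; ring
  rw [Ex_congr h1, Ex_sum]
  refine Finset.sum_congr rfl fun S _ => ?_
  rw [Ex_mul_left, Ex_chi_mul]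
  split_ifs <;> simp

lemma rad_sq (b : κ → ℝ) : Ex (fun e : κ → ℤˣ => rad b e ^ 2) = ∑ S, b S ^ 2 := by
  have h1 : ∀ e : κ → ℤˣ, rad b e ^ 2
      = ∑ T, b T * (rad b e * ∏ i ∈ ({T} : Finset κ), sg e i) := by
    intro e
    rw [sq]
    conv_lhs => rw [show rad b e = ∑ T, sg e T * b T from rfl]
    rw [Finset.sum_mul]
    refine Finset.sum_congr rfl fun T _ => ?_
    rw [Finset.prod_singleton]
    unfold rad
    ring
  rw [Ex_congr h1, Ex_sum]
  refine Finset.sum_congr rfl fun T _ => ?_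
  rw [Ex_mul_left, rad_chi]
  have : ∑ S, (if ({S} : Finset κ) = {T} then b S else 0) = b T := by
    simp [Finset.singleton_inj]
  rw [this]; ring

lemma rad_deg (b : κ → ℝ) (U : Finset κ) (hU : 1 < U.card) : fc (rad b) U = 0 := by
  rw [fc_eq_Ex, rad_chi]
  refine Finset.sum_eq_zero fun S _ => ?_
  rw [if_neg]
  rintro rfl
  simp at hU

lemma rad_abs (b : κ → ℝ) :
    Real.sqrt (∑ S, b S ^ 2) / 3 ≤ Ex (fun e : κ → ℤˣ => |rad b e|) := by
  have := l2_le_l1 1 (rad b) (rad_deg b)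
  rw [rad_sq, pow_one] at this
  linarith

lemma exp_le (y : ℝ) (hy : 0 ≤ y) : Real.exp (-y) ≤ 1 - y + y ^ 2 := by
  rcases le_or_gt y 1 with h | h
  · have := Real.abs_exp_sub_one_sub_id_le (x := -y) (by rw [abs_neg, abs_of_nonneg hy]; exact h)
    have h2 := (abs_le.1 this).2
    nlinarith
  · have h1 : Real.exp (-y) ≤ 1 := Real.exp_le_one_iff.2 (by linarith)
    nlinarith

lemma pair_le (l h t : ℝ) (hl : 0 ≤ l) :
    Real.exp (-(l * |h + t|)) + Real.exp (-(l * |h - t|)) ≤ 1 + Real.exp (-(2 * l * |t|)) := by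
  set p := Real.exp (-(l * |h + t|)) with hp
  set q := Real.exp (-(l * |h - t|)) with hq
  have hp1 : p ≤ 1 := Real.exp_le_one_iff.2 (by have := abs_nonneg (h + t); nlinarith)
  have hq1 : q ≤ 1 := Real.exp_le_one_iff.2 (by have := abs_nonneg (h - t); nlinarith)
  have hpq : p * q ≤ Real.exp (-(2 * l * |t|)) := by
    rw [hp, hq, ← Real.exp_add]
    apply Real.exp_le_exp.2
    have h1 : 2 * |t| ≤ |h + t| + |h - t| := by
      have := abs_sub (h + t) (h - t)
      have h2 : h + t - (h - t) = 2 * t := by ring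
      rw [h2, abs_mul, abs_two] at this
      exact this
    nlinarith
  nlinarith [mul_nonneg (sub_nonneg.2 hp1) (sub_nonneg.2 hq1)]

lemma Ex_neg (g : (κ → ℤˣ) → ℝ) : Ex (fun e => g (fun i => - e i)) = Ex g := by
  unfold Ex
  congr 1
  refine Fintype.sum_equiv (Equiv.neg (κ → ℤˣ)) _ _ fun e => rfl

lemma rad_neg (b : κ → ℝ) (e : κ → ℤˣ) : rad b (fun i => - e i) = - rad b e := by
  unfold rad
  rw [← Finset.sum_neg_distrib]
  refine Finset.sum_congr rfl fun S _ => ?_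
  simp [sg]

/-- one step -/
lemma mgf_step (b : κ → ℝ) (l h : ℝ) (hl : 0 ≤ l) :
    Ex (fun e : κ → ℤˣ => Real.exp (-(l * |h + rad b e|)))
      ≤ Real.exp (-(l * Real.sqrt (∑ S, b S ^ 2) / 3) + 2 * l ^ 2 * ∑ S, b S ^ 2) := by
  set V := ∑ S, b S ^ 2 with hV
  have h1 : Ex (fun e : κ → ℤˣ => Real.exp (-(l * |h + rad b e|)))
      = (1 / 2) * Ex (fun e : κ → ℤˣ => Real.exp (-(l * |h + rad b e|))
          + Real.exp (-(l * |h - rad b e|))) := by
    have := Ex_neg (fun e : κ → ℤˣ => Real.exp (-(l * |h + rad b e|)))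
    simp only [rad_neg, ← sub_eq_add_neg] at this
    rw [Ex_add, this]; ring
  have h2 : Ex (fun e : κ → ℤˣ => Real.exp (-(l * |h + rad b e|))
          + Real.exp (-(l * |h - rad b e|)))
      ≤ Ex (fun e : κ → ℤˣ => 2 + (-(2 * l)) * |rad b e| + 4 * l ^ 2 * rad b e ^ 2) := by
    refine Ex_mono fun e => ?_
    have h3 := pair_le l h (rad b e) hl
    have h4 := exp_le (2 * l * |rad b e|) (by positivity)
    have h5 : (2 * l * |rad b e|) ^ 2 = 4 * l ^ 2 * rad b e ^ 2 := by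
      rw [mul_pow, sq_abs]; ring
    rw [h5] at h4
    linarith
  have h3 : Ex (fun e : κ → ℤˣ => 2 + (-(2 * l)) * |rad b e| + 4 * l ^ 2 * rad b e ^ 2)
      = 2 - 2 * l * Ex (fun e : κ → ℤˣ => |rad b e|) + 4 * l ^ 2 * V := by
    rw [Ex_add (fun e : κ → ℤˣ => 2 + (-(2 * l)) * |rad b e|) (fun e => 4 * l ^ 2 * rad b e ^ 2),
      Ex_add (fun _ : κ → ℤˣ => (2:ℝ)) (fun e => (-(2 * l)) * |rad b e|), Ex_const,
      Ex_mul_left, Ex_mul_left, rad_sq]
    ring
  have h4 := rad_abs b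
  have h5 := Real.add_one_le_exp (-(l * Real.sqrt V / 3) + 2 * l ^ 2 * V)
  have h6 : l * (Real.sqrt V / 3) ≤ l * Ex (fun e : κ → ℤˣ => |rad b e|) :=
    mul_le_mul_of_nonneg_left h4 hl
  rw [h1]
  have h7 := h2.trans_eq h3
  nlinarith

end Pool.Agent.W769.SM
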