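import Pool.Agent.W769.SM.Main

/-!
# Smoothed analysis of the strengthened Aaronson-Ambainis inequality
-/

set_option autoImplicit false
set_option linter.unusedSectionVars false

namespace Pool.Agent.W769.SM

open Finset Pool.Agent.H722R2.AA Pool.Agent.H746R2.AA

variable {ι : Type*} [Fintype ι] [DecidableEq ι]

lemma nm_eq (g : (ι → ℤˣ) → ℝ) : (⨆ x, |g x|) = nm g := by
  apply le_antisymm
  · exact ciSup_le fun x => xmf_spec g x
  · exact le_ciSup (f := fun x => |g x|) (Set.finite_range _).bddAbove (xmf g)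

lemma Cov_le_nm (g : (ι → ℤˣ) → ℝ) : Cov g g ≤ nm g ^ 2 := by
  unfold Cov
  have h1 : Ex (fun x => g x * g x) ≤ nm g ^ 2 := by
    refine Ex_le_const fun x => ?_
    have := xmf_spec g x
    rw [← sq, ← sq_abs]
    exact pow_le_pow_left₀ (abs_nonneg _) this 2
  nlinarith [mul_self_nonneg (Ex g)]

/-- The main theorem. -/
theorem main (c b : Finset ι → ℝ) (A δ K : ℝ) (hA : 0 < A) (hδ : 0 < δ) (hK : 1 ≤ K)
    (hcA : ∀ S, S ≠ ∅ → |c S| + |b S| ≤ A * |b S|)
    (hcδ : ∀ S, S ≠ ∅ → δ * |b S| ≤ |(|c S| - |b S|)|)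
    (f : (Finset ι → ℤˣ) → (ι → ℤˣ) → ℝ)
    (hf : ∀ e x, f e x = ∑ S : Finset ι, (c S + sg e S * b S) * ∏ i ∈ S, sg x i) :
    ((Finset.univ.filter (fun e : Finset ι → ℤˣ =>
      12 * K * A ^ 2 / δ * (⨆ x, |f e x|) * (⨆ j, Real.sqrt (Inf (f e) j))
        < Cov (f e) (f e))).card : ℝ)
      ≤ Real.exp (-(K * δ) ^ 2) * 2 ^ Fintype.card (Finset ι) := by
  classical
  set B := Finset.univ.filter (fun e : Finset ι → ℤˣ =>
      12 * K * A ^ 2 / δ * (⨆ x, |f e x|) * (⨆ j, Real.sqrt (Inf (f e) j))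
        < Cov (f e) (f e)) with hB
  -- Fourier coefficients
  have hfc : ∀ e S, fc (f e) S = co c b e S := by
    intro e S
    have h1 : f e = fun x => ml (co c b e) (sg x) := by
      funext x; rw [hf]; rfl
    rw [h1, fc_ml]
  set σ : ℝ := ∑ S : Finset ι, (if S = ∅ then 0 else b S ^ 2) with hσ
  have hσ0 : 0 ≤ σ := Finset.sum_nonneg fun S _ => by split_ifs <;> positivity
  have hco : ∀ e S, S ≠ ∅ → δ ^ 2 * b S ^ 2 ≤ co c b e S ^ 2
      ∧ co c b e S ^ 2 ≤ A ^ 2 * b S ^ 2 := by
    intro e S hS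
    have h1 := hcA S hS
    have h2 := hcδ S hS
    have hsg : |sg e S * b S| = |b S| := by
      rw [abs_mul]
      rcases sg_cases e S with h | h <;> rw [h] <;> simp
    have h3 : |co c b e S| ≤ |c S| + |b S| := by
      unfold co
      rw [← hsg]; exact abs_add_le _ _
    have h4 : |(|c S| - |b S|)| ≤ |co c b e S| := by
      unfold co
      have := abs_abs_sub_abs_le_abs_sub (c S) (-(sg e S * b S))
      rw [abs_neg, hsg, sub_neg_eq_add] at this
      exact this
    constructor
    · have h5 := pow_le_pow_left₀ (by positivity) (h2.trans h4) 2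
      rw [mul_pow, sq_abs, sq_abs] at h5
      exact h5
    · have h5 := pow_le_pow_left₀ (abs_nonneg _) (h3.trans h1) 2
      rw [mul_pow, sq_abs, sq_abs] at h5
      exact h5
  have hcov : ∀ e, Cov (f e) (f e) = ∑ S : Finset ι, (if S = ∅ then 0 else co c b e S ^ 2) := by
    intro e
    rw [Cov_eq, Finset.sum_congr rfl (fun S _ => by rw [hfc, ← sq])]
    rw [← Finset.add_sum_erase Finset.univ
      (fun S : Finset ι => if S = ∅ then 0 else co c b e S ^ 2) (Finset.mem_univ ∅)]
    rw [if_pos rfl, zero_add]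
    exact Finset.sum_congr rfl fun S hS => by rw [if_neg (Finset.ne_of_mem_erase hS)]
  have hcov_le : ∀ e, Cov (f e) (f e) ≤ A ^ 2 * σ := by
    intro e
    rw [hcov, hσ, Finset.mul_sum]
    refine Finset.sum_le_sum fun S _ => ?_
    split_ifs with hS
    · simp
    · exact (hco e S hS).2
  have hcov_ge : ∀ e, δ ^ 2 * σ ≤ Cov (f e) (f e) := by
    intro e
    rw [hcov, hσ, Finset.mul_sum]
    refine Finset.sum_le_sum fun S _ => ?_
    split_ifs with hS
    · simp
    · exact (hco e S hS).1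
  rcases B.eq_empty_or_nonempty with hBe | ⟨e0, he0⟩
  · rw [hBe]; simp; positivity
  have hmem : ∀ e, e ∈ B → 12 * K * A ^ 2 / δ * (⨆ x, |f e x|)
      * (⨆ j, Real.sqrt (Inf (f e) j)) < Cov (f e) (f e) := by
    intro e he
    exact (Finset.mem_filter.1 he).2
  have hA2 : 0 < A ^ 2 := by positivity
  -- sigma is positive
  have hσpos : 0 < σ := by
    rcases hσ0.eq_or_lt with h | h
    · exfalso
      have h1 := hmem e0 he0
      have h2 := hcov_le e0
      rw [← h, mul_zero] at h2
      have h3 : 0 ≤ 12 * K * A ^ 2 / δ * (⨆ x, |f e0 x|)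
          * (⨆ j, Real.sqrt (Inf (f e0) j)) := by
        have h4 : 0 ≤ (⨆ x, |f e0 x|) := Real.iSup_nonneg fun x => abs_nonneg _
        have h5 : 0 ≤ (⨆ j, Real.sqrt (Inf (f e0) j)) :=
          Real.iSup_nonneg fun j => Real.sqrt_nonneg _
        positivity
      linarith
    · exact h
  -- a coordinate of positive influence
  obtain ⟨S0, hS0, hS0pos⟩ : ∃ S : Finset ι, S ≠ ∅ ∧ 0 < b S ^ 2 := by
    by_contra hcon
    push Not at hcon
    have : σ ≤ 0 := Finset.sum_nonpos fun S _ => by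
      split_ifs with h
      · exact le_rfl
      · exact hcon S (Finset.nonempty_iff_ne_empty.2 h)
    linarith
  obtain ⟨i0, hi0⟩ := Finset.nonempty_iff_ne_empty.2 hS0
  have : Nonempty ι := ⟨i0⟩
  set I : ι → ℝ := fun j => ∑ S : Finset ι, (if j ∈ S then b S ^ 2 else 0) with hI
  have hI0 : ∀ j, 0 ≤ I j := fun j => Finset.sum_nonneg fun S _ => by split_ifs <;> positivity
  obtain ⟨j0, hj0⟩ := Finite.exists_max I
  have hIpos : 0 < I j0 := by
    refine lt_of_lt_of_le ?_ (hj0 i0)
    have h1 : b S0 ^ 2 ≤ I i0 := by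
      have := Finset.single_le_sum (f := fun S : Finset ι => if i0 ∈ S then b S ^ 2 else 0)
        (fun S _ => by split_ifs <;> positivity) (Finset.mem_univ S0)
      simpa [hi0] using this
    exact lt_of_lt_of_le hS0pos h1
  set M := Real.sqrt (I j0) with hM
  have hMpos : 0 < M := Real.sqrt_pos.2 hIpos
  have hMsq : M ^ 2 = I j0 := Real.sq_sqrt (hI0 j0)
  -- the derivative norms of the perturbed function
  have hMf : ∀ e, δ * M ≤ ⨆ j, Real.sqrt (Inf (f e) j) := by
    intro e
    refine le_trans ?_ (le_ciSup (f := fun j => Real.sqrt (Inf (f e) j))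
      (Set.finite_range _).bddAbove j0)
    have h1 : δ ^ 2 * I j0 ≤ Inf (f e) j0 := by
      rw [Inf_eq, hI, Finset.mul_sum]
      refine Finset.sum_le_sum fun S _ => ?_
      split_ifs with hS
      · rw [hfc]; exact (hco e S (Finset.ne_empty_of_mem hS)).1
      · simp
    have h2 : δ * M = Real.sqrt (δ ^ 2 * I j0) := by
      rw [Real.sqrt_mul (sq_nonneg _), Real.sqrt_sq hδ.le]
    rw [h2]
    exact Real.sqrt_le_sqrt h1
  -- bad sign patterns have a small sup norm
  have hsmall : ∀ e ∈ B, 12 * K * nm (f e) * M < σ := by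
    intro e he
    have h1 := hmem e he
    rw [nm_eq] at h1
    have h2 := hcov_le e
    have h3 := hMf e
    have hN := nm_nonneg (f e)
    have h4 : 12 * K * A ^ 2 / δ * nm (f e) * (δ * M)
        ≤ 12 * K * A ^ 2 / δ * nm (f e) * (⨆ j, Real.sqrt (Inf (f e) j)) :=
      mul_le_mul_of_nonneg_left h3 (by positivity)
    have h5 : 12 * K * A ^ 2 / δ * nm (f e) * (δ * M)
        = A ^ 2 * (12 * K * nm (f e) * M) := by
      field_simp
    rw [h5] at h4
    have h6 : A ^ 2 * (12 * K * nm (f e) * M) < A ^ 2 * σ := by linarith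
    exact lt_of_mul_lt_mul_left h6 hA2.le
  -- the moment generating function
  set l : ℝ := 1 / (12 * M) with hl
  have hl0 : 0 < l := by positivity
  have hmgf := mgf c b l hl0.le M hMpos (fun j => by rw [hMsq]; exact hj0 j) Finset.univ
  have hFf : ∀ e, F c b Finset.univ e = f e := by
    intro e; funext x
    rw [hf]; unfold F co
    rw [Finset.powerset_univ]
  simp only [hFf] at hmgf
  rw [Finset.powerset_univ] at hmgf
  have hθ : l / (3 * M) - 2 * l ^ 2 = 1 / (72 * M ^ 2) := by
    rw [hl]; field_simp; norm_num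
  rw [hθ] at hmgf
  -- Markov
  set s : ℝ := σ / (12 * M) with hs
  have hcount : (B.card : ℝ) * Real.exp (-(l * s)) ≤ ∑ e : Finset ι → ℤˣ,
      Real.exp (-(l * nm (f e))) := by
    calc (B.card : ℝ) * Real.exp (-(l * s)) = ∑ _e ∈ B, Real.exp (-(l * s)) := by
          rw [Finset.sum_const, nsmul_eq_mul]
      _ ≤ ∑ e ∈ B, Real.exp (-(l * nm (f e))) := by
          refine Finset.sum_le_sum fun e he => Real.exp_le_exp.2 ?_
          have h1 := hsmall e he
          have hN := nm_nonneg (f e)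
          have h2 : nm (f e) ≤ s := by
            rw [hs, le_div_iff₀ (by positivity)]
            have h3 : 12 * nm (f e) * M ≤ 12 * K * nm (f e) * M := by
              have : 0 ≤ nm (f e) * M := by positivity
              nlinarith
            linarith
          have := mul_le_mul_of_nonneg_left h2 hl0.le
          linarith
      _ ≤ _ := Finset.sum_le_sum_of_subset_of_nonneg (Finset.subset_univ _)
          fun e _ _ => (Real.exp_pos _).le
  have hEx : ∑ e : Finset ι → ℤˣ, Real.exp (-(l * nm (f e)))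
      ≤ Real.exp (-(1 / (72 * M ^ 2) * σ)) * 2 ^ Fintype.card (Finset ι) := by
    have h1 : Ex (fun e : Finset ι → ℤˣ => Real.exp (-(l * nm (f e))))
        = (∑ e : Finset ι → ℤˣ, Real.exp (-(l * nm (f e)))) / 2 ^ Fintype.card (Finset ι) := rfl
    rw [h1, div_le_iff₀ (by positivity)] at hmgf
    exact hmgf
  have hls : l * s = σ / (144 * M ^ 2) := by
    rw [hl, hs]; field_simp; norm_num
  have hcard : (B.card : ℝ) ≤ Real.exp (-(σ / (144 * M ^ 2))) * 2 ^ Fintype.card (Finset ι) := by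
    have h1 := hcount.trans hEx
    rw [hls] at h1
    have h2 : Real.exp (-(1 / (72 * M ^ 2) * σ))
        = Real.exp (-(σ / (144 * M ^ 2))) * Real.exp (-(σ / (144 * M ^ 2))) := by
      rw [← Real.exp_add]; congr 1; field_simp; norm_num
    rw [h2] at h1
    have h3 : (B.card : ℝ) * Real.exp (-(σ / (144 * M ^ 2)))
        ≤ (Real.exp (-(σ / (144 * M ^ 2))) * 2 ^ Fintype.card (Finset ι))
          * Real.exp (-(σ / (144 * M ^ 2))) := by linarith
    exact le_of_mul_le_mul_right h3 (Real.exp_pos _)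
  refine hcard.trans (mul_le_mul_of_nonneg_right (Real.exp_le_exp.2 ?_) (by positivity))
  -- the ratio σ / M²
  have h1 := hsmall e0 he0
  have h2 : δ * Real.sqrt σ ≤ nm (f e0) := by
    have h3 := (hcov_ge e0).trans (Cov_le_nm (f e0))
    have h4 : δ * Real.sqrt σ = Real.sqrt (δ ^ 2 * σ) := by
      rw [Real.sqrt_mul (sq_nonneg _), Real.sqrt_sq hδ.le]
    rw [h4]
    exact Real.sqrt_le_iff.2 ⟨nm_nonneg _, h3⟩
  have hsσ : 0 < Real.sqrt σ := Real.sqrt_pos.2 hσpos
  have hsq : Real.sqrt σ * Real.sqrt σ = σ := Real.mul_self_sqrt hσ0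
  have h5 : 12 * K * (δ * Real.sqrt σ) * M < σ := by
    refine lt_of_le_of_lt ?_ h1
    have : 0 ≤ 12 * K * M := by positivity
    nlinarith
  have h6 : 12 * K * δ * M < Real.sqrt σ := by
    have h7 : (12 * K * δ * M) * Real.sqrt σ < Real.sqrt σ * Real.sqrt σ := by
      calc (12 * K * δ * M) * Real.sqrt σ = 12 * K * (δ * Real.sqrt σ) * M := by ring
        _ < σ := h5
        _ = Real.sqrt σ * Real.sqrt σ := by rw [hsq]
    exact lt_of_mul_lt_mul_right h7 hsσ.le
  have h8 : (12 * K * δ * M) ^ 2 ≤ Real.sqrt σ ^ 2 :=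
    pow_le_pow_left₀ (by positivity) h6.le 2
  have h9 : (K * δ) ^ 2 ≤ σ / (144 * M ^ 2) := by
    rw [le_div_iff₀ (by positivity)]
    rw [sq (Real.sqrt σ), hsq] at h8
    nlinarith
  linarith

end Pool.Agent.W769.SM
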