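import Pool.Agent.W769.SM.Core

/-!
# The moment generating function of the sup norm of a randomly perturbed function
-/

set_option autoImplicit false
set_option linter.unusedSectionVars false

namespace Pool.Agent.W769.SM

open Finset Pool.Agent.H722R2.AA Pool.Agent.H746R2.AA

variable {ι : Type*} [Fintype ι] [DecidableEq ι]

/-- perturbed coefficients -/
noncomputable def co (c b : Finset ι → ℝ) (e : Finset ι → ℤˣ) (S : Finset ι) : ℝ :=
  c S + sg e S * b S

/-- truncated function -/
noncomputable def F (c b : Finset ι → ℝ) (T : Finset ι) (e : Finset ι → ℤˣ)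
    (x : ι → ℤˣ) : ℝ := ∑ S ∈ T.powerset, co c b e S * ∏ i ∈ S, sg x i

/-- a maximiser -/
noncomputable def xmf (g : (ι → ℤˣ) → ℝ) : ι → ℤˣ :=
  Classical.choose (Finite.exists_max (fun x => |g x|))

lemma xmf_spec (g : (ι → ℤˣ) → ℝ) (x : ι → ℤˣ) : |g x| ≤ |g (xmf g)| :=
  Classical.choose_spec (Finite.exists_max (fun x => |g x|)) x

/-- sup norm -/
noncomputable def nm (g : (ι → ℤˣ) → ℝ) : ℝ := |g (xmf g)|

lemma nm_nonneg (g : (ι → ℤˣ) → ℝ) : 0 ≤ nm g := abs_nonneg _

lemma exists_sign (A B : ℝ) : ∃ u : ℤˣ, |A| + |B| ≤ |A + ((u : ℤ) : ℝ) * B| := by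
  by_cases h : 0 ≤ A * B
  · refine ⟨1, ?_⟩
    have : |A + B| = |A| + |B| := by
      rcases abs_cases A with h1 | h1 <;> rcases abs_cases B with h2 | h2 <;>
        rcases abs_cases (A + B) with h3 | h3 <;> nlinarith
    simp [this]
  · refine ⟨-1, ?_⟩
    have : |A - B| = |A| + |B| := by
      push Not at h
      rcases abs_cases A with h1 | h1 <;> rcases abs_cases B with h2 | h2 <;>
        rcases abs_cases (A - B) with h3 | h3 <;> nlinarith
    simp only [Units.val_neg, Units.val_one, Int.reduceNeg, Int.cast_neg, Int.cast_one, neg_mul,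
      one_mul, ← sub_eq_add_neg, this, le_refl]

/-- the part of the truncated function with the new variable -/
noncomputable def G (c b : Finset ι → ℝ) (T : Finset ι) (j : ι) (e : Finset ι → ℤˣ)
    (x : ι → ℤˣ) : ℝ := ∑ S ∈ T.powerset, co c b e (insert j S) * ∏ i ∈ S, sg x i

lemma F_insert (c b : Finset ι → ℝ) (T : Finset ι) (j : ι) (hj : j ∉ T)
    (e : Finset ι → ℤˣ) (x : ι → ℤˣ) :
    F c b (insert j T) e x = F c b T e x + sg x j * G c b T j e x := by
  unfold F G
  rw [Finset.sum_powerset_insert hj, Finset.mul_sum]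
  congr 1
  refine Finset.sum_congr rfl fun S hS => ?_
  have hjS : j ∉ S := fun h => hj (Finset.mem_powerset.1 hS h)
  rw [Finset.prod_insert hjS]; ring

lemma prod_sg_update (x : ι → ℤˣ) (j : ι) (u : ℤˣ) (S : Finset ι) (hS : j ∉ S) :
    ∏ i ∈ S, sg (Function.update x j u) i = ∏ i ∈ S, sg x i := by
  refine Finset.prod_congr rfl fun i hi => ?_
  have : i ≠ j := fun h => hS (h ▸ hi)
  simp [sg, Function.update_of_ne this]

lemma nm_insert (c b : Finset ι → ℝ) (T : Finset ι) (j : ι) (hj : j ∉ T)
    (e : Finset ι → ℤˣ) :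
    nm (F c b T e) + |G c b T j e (xmf (F c b T e))| ≤ nm (F c b (insert j T) e) := by
  set x := xmf (F c b T e) with hx
  obtain ⟨u, hu⟩ := exists_sign (F c b T e x) (G c b T j e x)
  have h1 : F c b (insert j T) e (Function.update x j u)
      = F c b T e x + ((u : ℤ) : ℝ) * G c b T j e x := by
    rw [F_insert c b T j hj]
    have h2 : F c b T e (Function.update x j u) = F c b T e x := by
      unfold F
      refine Finset.sum_congr rfl fun S hS => ?_
      rw [prod_sg_update x j u S (fun h => hj (Finset.mem_powerset.1 hS h))]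
    have h3 : G c b T j e (Function.update x j u) = G c b T j e x := by
      unfold G
      refine Finset.sum_congr rfl fun S hS => ?_
      rw [prod_sg_update x j u S (fun h => hj (Finset.mem_powerset.1 hS h))]
    rw [h2, h3]
    simp [sg]
  have h4 := xmf_spec (F c b (insert j T) e) (Function.update x j u)
  rw [h1] at h4
  exact hu.trans h4

lemma F_congr (c b : Finset ι → ℝ) (T : Finset ι) (e e' : Finset ι → ℤˣ)
    (h : ∀ S ∈ T.powerset, e S = e' S) : F c b T e = F c b T e' := by
  funext x
  unfold F co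
  refine Finset.sum_congr rfl fun S hS => ?_
  simp [sg, h S hS]

lemma G_congr (c b : Finset ι → ℝ) (T : Finset ι) (j : ι) (e e' : Finset ι → ℤˣ)
    (h : ∀ S ∈ T.powerset, e (insert j S) = e' (insert j S)) :
    G c b T j e = G c b T j e' := by
  funext x
  unfold G co
  refine Finset.sum_congr rfl fun S hS => ?_
  simp [sg, h S hS]

lemma G_mgf (c b : Finset ι → ℝ) (T : Finset ι) (j : ι) (hj : j ∉ T)
    (x : ι → ℤˣ) (l : ℝ) (hl : 0 ≤ l) (M : ℝ) (hM : 0 < M)
    (hMW : ∑ S ∈ T.powerset, b (insert j S) ^ 2 ≤ M ^ 2) :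
    Ex (fun e : Finset ι → ℤˣ => Real.exp (-(l * |G c b T j e x|)))
      ≤ Real.exp (-((l / (3 * M) - 2 * l ^ 2)
          * ∑ S ∈ T.powerset, b (insert j S) ^ 2)) := by
  classical
  set W := ∑ S ∈ T.powerset, b (insert j S) ^ 2 with hW
  set P := T.powerset.image (fun S => insert j S) with hP
  have hinj : ∀ S ∈ T.powerset, ∀ S' ∈ T.powerset, insert j S = insert j S' → S = S' := by
    intro S hS S' hS' h
    have h1 : j ∉ S := fun h => hj (Finset.mem_powerset.1 hS h)
    have h2 : j ∉ S' := fun h => hj (Finset.mem_powerset.1 hS' h)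
    rw [← Finset.erase_insert h1, h, Finset.erase_insert h2]
  set d : Finset ι → ℝ := fun U => if U ∈ P then b U * ∏ i ∈ U.erase j, sg x i else 0 with hd
  set h0 : ℝ := ∑ S ∈ T.powerset, c (insert j S) * ∏ i ∈ S, sg x i with hh0
  have hG : ∀ e : Finset ι → ℤˣ, G c b T j e x = h0 + rad d e := by
    intro e
    have h1 : rad d e = ∑ S ∈ T.powerset, sg e (insert j S) * (b (insert j S)
        * ∏ i ∈ S, sg x i) := by
      unfold rad
      simp only [hd, mul_ite, mul_zero]
      rw [Finset.sum_ite_mem, Finset.univ_inter, hP, Finset.sum_image hinj]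
      refine Finset.sum_congr rfl fun S hS => ?_
      have h1 : j ∉ S := fun h => hj (Finset.mem_powerset.1 hS h)
      rw [Finset.erase_insert h1]
    rw [h1, hh0, ← Finset.sum_add_distrib]
    unfold G co
    exact Finset.sum_congr rfl fun S _ => by ring
  have hV : ∑ U, d U ^ 2 = W := by
    have h1 : ∀ U, d U ^ 2 = if U ∈ P then b U ^ 2 else 0 := by
      intro U
      simp only [hd]
      split_ifs
      · have h2 : (∏ i ∈ U.erase j, sg x i) ^ 2 = 1 := by
          rw [← Finset.prod_pow]
          exact Finset.prod_eq_one fun i _ => by rw [sq, sg_mul_self]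
        rw [mul_pow, h2, mul_one]
      · simp
    rw [Finset.sum_congr rfl fun U _ => h1 U, Finset.sum_ite_mem, Finset.univ_inter, hP,
      Finset.sum_image hinj, hW]
  have hstep := mgf_step d l h0 hl
  rw [hV] at hstep
  simp only [hG]
  refine hstep.trans (Real.exp_le_exp.2 ?_)
  have hW0 : 0 ≤ W := Finset.sum_nonneg fun S _ => sq_nonneg _
  have hsM : Real.sqrt W ≤ M := Real.sqrt_le_iff.2 ⟨hM.le, hMW⟩
  have hsq : Real.sqrt W * Real.sqrt W = W := Real.mul_self_sqrt hW0
  have hkey : W / M ≤ Real.sqrt W := by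
    rw [div_le_iff₀ hM]
    nlinarith [Real.sqrt_nonneg W]
  have h5 : l / 3 * (W / M) ≤ l / 3 * Real.sqrt W :=
    mul_le_mul_of_nonneg_left hkey (by positivity)
  have h6 : (l / (3 * M)) * W = l / 3 * (W / M) := by
    field_simp
  nlinarith

/-- The moment generating function. -/
lemma mgf (c b : Finset ι → ℝ) (l : ℝ) (hl : 0 ≤ l) (M : ℝ) (hM : 0 < M)
    (hMa : ∀ j, ∑ S : Finset ι, (if j ∈ S then b S ^ 2 else 0) ≤ M ^ 2) (T : Finset ι) :
    Ex (fun e : Finset ι → ℤˣ => Real.exp (-(l * nm (F c b T e))))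
      ≤ Real.exp (-((l / (3 * M) - 2 * l ^ 2)
          * ∑ S ∈ T.powerset, if S = ∅ then 0 else b S ^ 2)) := by
  classical
  induction T using Finset.induction_on with
  | empty =>
    simp only [Finset.powerset_empty, Finset.sum_singleton, if_true, mul_zero, neg_zero,
      Real.exp_zero]
    exact Ex_le_const fun e => Real.exp_le_one_iff.2 (by have := nm_nonneg (F c b ∅ e); nlinarith)
  | insert j T hj ih =>
    have hMW : ∑ S ∈ T.powerset, b (insert j S) ^ 2 ≤ M ^ 2 := by
      refine le_trans ?_ (hMa j)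
      have hinj : ∀ S ∈ T.powerset, ∀ S' ∈ T.powerset, insert j S = insert j S' → S = S' := by
        intro S hS S' hS' h
        have h1 : j ∉ S := fun h => hj (Finset.mem_powerset.1 hS h)
        have h2 : j ∉ S' := fun h => hj (Finset.mem_powerset.1 hS' h)
        rw [← Finset.erase_insert h1, h, Finset.erase_insert h2]
      have h1 : ∑ S ∈ T.powerset, b (insert j S) ^ 2
          = ∑ U ∈ T.powerset.image (fun S => insert j S), (if j ∈ U then b U ^ 2 else 0) := by
        rw [Finset.sum_image hinj]
        exact Finset.sum_congr rfl fun S _ => by rw [if_pos (Finset.mem_insert_self j S)]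
      rw [h1]
      refine Finset.sum_le_sum_of_subset_of_nonneg (Finset.subset_univ _) fun U _ _ => ?_
      split_ifs
      · exact sq_nonneg _
      · exact le_rfl
    set θ := l / (3 * M) - 2 * l ^ 2 with hθ
    set W := ∑ S ∈ T.powerset, b (insert j S) ^ 2 with hW
    have hsum : ∑ S ∈ (insert j T).powerset, (if S = ∅ then 0 else b S ^ 2)
        = (∑ S ∈ T.powerset, if S = ∅ then 0 else b S ^ 2) + W := by
      rw [Finset.sum_powerset_insert hj]
      congr 1
      exact Finset.sum_congr rfl fun S _ => by rw [if_neg (Finset.insert_ne_empty j S)]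
    rw [hsum, mul_add, neg_add, Real.exp_add]
    have h1 : Ex (fun e : Finset ι → ℤˣ => Real.exp (-(l * nm (F c b (insert j T) e))))
        ≤ Ex (fun e : Finset ι → ℤˣ => Real.exp (-(l * nm (F c b T e)))
            * Real.exp (-(l * |G c b T j e (xmf (F c b T e))|))) := by
      refine Ex_mono fun e => ?_
      rw [← Real.exp_add]
      apply Real.exp_le_exp.2
      have := nm_insert c b T j hj e
      nlinarith
    refine h1.trans ?_
    rw [Ex_overlay T.powerset]
    have h2 : ∀ z : Finset ι → ℤˣ, Ex (fun y : Finset ι → ℤˣ =>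
        Real.exp (-(l * nm (F c b T (T.powerset.piecewise z y))))
            * Real.exp (-(l * |G c b T j (T.powerset.piecewise z y)
                (xmf (F c b T (T.powerset.piecewise z y)))|)))
        ≤ Real.exp (-(l * nm (F c b T z))) * Real.exp (-(θ * W)) := by
      intro z
      have h3 : ∀ y : Finset ι → ℤˣ, F c b T (T.powerset.piecewise z y) = F c b T z :=
        fun y => F_congr c b T _ _ fun S hS => Finset.piecewise_eq_of_mem _ _ _ hS
      have h4 : ∀ y : Finset ι → ℤˣ, G c b T j (T.powerset.piecewise z y) = G c b T j y :=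
        fun y => G_congr c b T j _ _ fun S hS => Finset.piecewise_eq_of_notMem _ _ _
          (fun h => hj (Finset.mem_powerset.1 h (Finset.mem_insert_self j S)))
      simp only [h3, h4]
      rw [Ex_mul_left]
      exact mul_le_mul_of_nonneg_left
        (G_mgf c b T j hj (xmf (F c b T z)) l hl M hM hMW) (Real.exp_pos _).le
    refine (Ex_mono h2).trans ?_
    rw [Ex_mul_right]
    exact mul_le_mul_of_nonneg_right ih (Real.exp_pos _).le

end Pool.Agent.W769.SM
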